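import Pool.Agent.helper7.PQ.Spec

set_option autoImplicit false

open Finset PowerSeries Pool.Agent.EP

namespace Pool.Agent.PQ

lemma FBP_two (Q : Finset ℕ) (y N D : ℕ) (hy : D ≤ y) (hN0 : 0 < N) (hN : N ≤ D * y ^ 2)
    (hQ : ∀ q ∈ Q, q.Prime ∧ y < q ∧ q ∣ N) : Q.card ≤ 2 := by
  by_contra hcon
  push Not at hcon
  rw [Finset.two_lt_card] at hcon
  obtain ⟨a, ha, b, hb, c, hc, hab, hac, hbc⟩ := hcon
  obtain ⟨pa, ya, da⟩ := hQ a ha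
  obtain ⟨pb, yb, db⟩ := hQ b hb
  obtain ⟨pc, yc, dc⟩ := hQ c hc
  have cab : Nat.Coprime a b := (Nat.coprime_primes pa pb).2 hab
  have cac : Nat.Coprime a c := (Nat.coprime_primes pa pc).2 hac
  have cbc : Nat.Coprime b c := (Nat.coprime_primes pb pc).2 hbc
  have h1 : a * b ∣ N := Nat.Coprime.mul_dvd_of_dvd_of_dvd cab da db
  have h2 : a * b * c ∣ N :=
    Nat.Coprime.mul_dvd_of_dvd_of_dvd (Nat.Coprime.mul_left cac cbc) h1 dc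
  have h3 : a * b * c ≤ N := Nat.le_of_dvd hN0 h2
  have h4 : (y + 1) * (y + 1) ≤ a * b := Nat.mul_le_mul ya yb
  have h5 : (y + 1) * (y + 1) * (y + 1) ≤ a * b * c := Nat.mul_le_mul h4 yc
  have h6 : D * y ^ 2 ≤ y * y ^ 2 := Nat.mul_le_mul_right _ hy
  nlinarith

lemma FBP_sqrt (u B M K : ℕ) (hB : 0 < B) (h : B * u ^ 2 < M) (hK : M ≤ K) :
    u ∈ range (Nat.sqrt K + 1) := by
  rw [Finset.mem_range, Nat.lt_succ_iff, Nat.le_sqrt]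
  nlinarith [Nat.mul_le_mul_right (u ^ 2) hB]

lemma FBP_real (Q y : ℕ) (hQ : 0 < Q) (hy : 1 ≤ y) :
    ((Nat.sqrt (2 * Q * y) + 1 : ℕ) : ℝ) ≤ (2 * Q + 1) * √(y : ℝ) := by
  have hy1 : (1 : ℝ) ≤ y := by exact_mod_cast hy
  have hQ1 : (1 : ℝ) ≤ Q := by exact_mod_cast hQ
  have h1 : (1 : ℝ) ≤ √(y : ℝ) := by
    rw [show (1 : ℝ) = √1 by simp]
    exact Real.sqrt_le_sqrt hy1
  have h2 : (Nat.sqrt (2 * Q * y) : ℝ) ≤ √((2 * Q * y : ℕ) : ℝ) := Real.nat_sqrt_le_real_sqrt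
  have h3 : √((2 * Q * y : ℕ) : ℝ) ≤ 2 * Q * √(y : ℝ) := by
    rw [Real.sqrt_le_left (by positivity)]
    rw [mul_pow, Real.sq_sqrt (by positivity)]
    push_cast
    have : (2 * (Q : ℝ)) ≤ (2 * Q) ^ 2 := by nlinarith
    exact mul_le_mul_of_nonneg_right this (by positivity)
  push_cast
  nlinarith

theorem FBP : FBP_stmt := by
  classical
  intro B Q₁ Q₂ hB hQ₁ hQ₂
  refine ⟨4 * Q₁ + 4 * Q₂ + 4, 4 * Q₁ * Q₂ + 1, by positivity, ?_⟩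
  intro y hy n
  have hQQ : 0 < Q₁ * Q₂ := Nat.mul_pos hQ₁ hQ₂
  have hy4 : 4 * Q₁ * Q₂ ≤ y := by omega
  have hy1 : 1 ≤ y := by omega
  set F : Finset (ℕ × ℕ) :=
    {x ∈ Ioc y (2 * y) ×ˢ Ioc y (2 * y) | x.1.Prime ∧ x.2.Prime ∧ RelP B Q₁ Q₂ x.1 x.2 n} with hF
  set N : ℕ := 24 * n - 1 with hNdef
  by_cases hne : F.Nonempty
  swap
  · rw [Finset.not_nonempty_iff_eq_empty] at hne
    rw [hne]
    simp only [Finset.card_empty, Nat.cast_zero]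
    positivity
  have key : ∀ P P' : ℕ, (P, P') ∈ F →
      (P.Prime ∧ P'.Prime ∧ y < P ∧ P ≤ 2 * y ∧ y < P' ∧ P' ≤ 2 * y) ∧ RelP B Q₁ Q₂ P P' n := by
    intro P P' h
    simp only [hF, Finset.mem_filter, Finset.mem_product, Finset.mem_Ioc] at h
    obtain ⟨⟨⟨h1, h2⟩, h3, h4⟩, h5, h6, h7⟩ := h
    exact ⟨⟨h5, h6, h1, h2, h3, h4⟩, h7⟩
  have hs : 0 < N ∧ N ≤ 4 * Q₁ * Q₂ * y ^ 2 := by
    obtain ⟨⟨P, P'⟩, hx⟩ := hne
    obtain ⟨⟨hM, hp, h1, h2, h3, h4⟩, hR⟩ := key P P' hx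
    have e1 : Q₁ * P ≤ Q₁ * (2 * y) := Nat.mul_le_mul_left _ h2
    have e2 : Q₂ * P' ≤ Q₂ * (2 * y) := Nat.mul_le_mul_left _ h4
    have e3 : 0 < Q₁ * P := Nat.mul_pos hQ₁ hM.pos
    have e4 : 0 < Q₂ * P' := Nat.mul_pos hQ₂ hp.pos
    obtain ⟨u, hR⟩ := hR
    rcases hR with ⟨hu, he⟩ | ⟨hu, he⟩
    · have hN1 : N = Q₁ * P * (Q₂ * P' - B * u ^ 2) := by omega
      rw [hN1]
      refine ⟨Nat.mul_pos e3 (by omega), ?_⟩
      calc Q₁ * P * (Q₂ * P' - B * u ^ 2) ≤ Q₁ * (2 * y) * (Q₂ * (2 * y)) :=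
            Nat.mul_le_mul e1 (by omega)
        _ = 4 * Q₁ * Q₂ * y ^ 2 := by ring
    · have hN1 : N = (Q₁ * P - B * u ^ 2) * (Q₂ * P') := by omega
      rw [hN1]
      refine ⟨Nat.mul_pos (by omega) e4, ?_⟩
      calc (Q₁ * P - B * u ^ 2) * (Q₂ * P') ≤ Q₁ * (2 * y) * (Q₂ * (2 * y)) :=
            Nat.mul_le_mul (by omega) e2
        _ = 4 * Q₁ * Q₂ * y ^ 2 := by ring
  obtain ⟨hN0, hN⟩ := hs
  set Qs : Finset ℕ := (Ioc y (2 * y)).filter (fun p => p.Prime ∧ p ∣ N) with hQs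
  have c1 : Qs.card ≤ 2 := by
    refine FBP_two Qs y N (4 * Q₁ * Q₂) hy4 hN0 hN ?_
    intro q hq
    simp only [hQs, Finset.mem_filter, Finset.mem_Ioc] at hq
    exact ⟨hq.2.1, hq.1.1, hq.2.2⟩
  set R1 : Finset ℕ := range (Nat.sqrt (2 * Q₂ * y) + 1) with hR1
  set R2 : Finset ℕ := range (Nat.sqrt (2 * Q₁ * y) + 1) with hR2
  have hsub : F ⊆
      ((Qs ×ˢ R1).image (fun z => (z.1, (N / (Q₁ * z.1) + B * z.2 ^ 2) / Q₂))) ∪
      ((Qs ×ˢ R2).image (fun z => ((N / (Q₂ * z.1) + B * z.2 ^ 2) / Q₁, z.1))) := by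
    rintro ⟨P, P'⟩ hx
    obtain ⟨⟨hM, hp, h1, h2, h3, h4⟩, hRel⟩ := key P P' hx
    have e1 : Q₁ * P ≤ Q₁ * (2 * y) := Nat.mul_le_mul_left _ h2
    have e2 : Q₂ * P' ≤ Q₂ * (2 * y) := Nat.mul_le_mul_left _ h4
    have e3 : 0 < Q₁ * P := Nat.mul_pos hQ₁ hM.pos
    have e4 : 0 < Q₂ * P' := Nat.mul_pos hQ₂ hp.pos
    obtain ⟨u, hRel⟩ := hRel
    rcases hRel with ⟨hu, he⟩ | ⟨hu, he⟩
    · have hN1 : N = Q₁ * P * (Q₂ * P' - B * u ^ 2) := by omega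
      have hpd : P ∣ N := ⟨Q₁ * (Q₂ * P' - B * u ^ 2), by rw [hN1]; ring⟩
      refine Finset.mem_union_left _ (Finset.mem_image.2 ⟨(P, u), ?_, ?_⟩)
      · refine Finset.mem_product.2 ⟨?_, ?_⟩
        · simp only [hQs, Finset.mem_filter, Finset.mem_Ioc]
          exact ⟨⟨h1, h2⟩, hM, hpd⟩
        · exact FBP_sqrt u B (Q₂ * P') (2 * Q₂ * y) hB hu (by nlinarith)
      · have hd : N / (Q₁ * P) = Q₂ * P' - B * u ^ 2 := by
          rw [hN1]; exact Nat.mul_div_cancel_left _ e3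
        simp only [hd, Prod.mk.injEq, true_and]
        have : Q₂ * P' - B * u ^ 2 + B * u ^ 2 = Q₂ * P' := by omega
        rw [this]
        exact Nat.mul_div_cancel_left _ hQ₂
    · have hN1 : N = (Q₁ * P - B * u ^ 2) * (Q₂ * P') := by omega
      have hpd : P' ∣ N := ⟨(Q₁ * P - B * u ^ 2) * Q₂, by rw [hN1]; ring⟩
      refine Finset.mem_union_right _ (Finset.mem_image.2 ⟨(P', u), ?_, ?_⟩)
      · refine Finset.mem_product.2 ⟨?_, ?_⟩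
        · simp only [hQs, Finset.mem_filter, Finset.mem_Ioc]
          exact ⟨⟨h3, h4⟩, hp, hpd⟩
        · exact FBP_sqrt u B (Q₁ * P) (2 * Q₁ * y) hB hu (by nlinarith)
      · have hd : N / (Q₂ * P') = Q₁ * P - B * u ^ 2 := by
          rw [hN1]; exact Nat.mul_div_cancel _ e4
        simp only [hd, Prod.mk.injEq, and_true]
        have : Q₁ * P - B * u ^ 2 + B * u ^ 2 = Q₁ * P := by omega
        rw [this]
        exact Nat.mul_div_cancel_left _ hQ₁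
  have hcard : F.card ≤ 2 * (Nat.sqrt (2 * Q₂ * y) + 1) + 2 * (Nat.sqrt (2 * Q₁ * y) + 1) := by
    calc F.card ≤ _ := Finset.card_le_card hsub
      _ ≤ ((Qs ×ˢ R1).image (fun z => (z.1, (N / (Q₁ * z.1) + B * z.2 ^ 2) / Q₂))).card +
        ((Qs ×ˢ R2).image (fun z => ((N / (Q₂ * z.1) + B * z.2 ^ 2) / Q₁, z.1))).card :=
          Finset.card_union_le _ _
      _ ≤ (Qs ×ˢ R1).card + (Qs ×ˢ R2).card :=
          Nat.add_le_add Finset.card_image_le Finset.card_image_le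
      _ = Qs.card * (Nat.sqrt (2 * Q₂ * y) + 1) + Qs.card * (Nat.sqrt (2 * Q₁ * y) + 1) := by
          rw [Finset.card_product, Finset.card_product, hR1, hR2, Finset.card_range,
            Finset.card_range]
      _ ≤ _ := Nat.add_le_add (Nat.mul_le_mul_right _ c1) (Nat.mul_le_mul_right _ c1)
  have r1 := FBP_real Q₂ y hQ₂ hy1
  have r2 := FBP_real Q₁ y hQ₁ hy1
  have h3 : (F.card : ℝ) ≤ 2 * ((Nat.sqrt (2 * Q₂ * y) + 1 : ℕ) : ℝ) +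
      2 * ((Nat.sqrt (2 * Q₁ * y) + 1 : ℕ) : ℝ) := by exact_mod_cast hcard
  calc (F.card : ℝ) ≤ _ := h3
    _ ≤ 2 * ((2 * Q₂ + 1) * √(y : ℝ)) + 2 * ((2 * Q₁ + 1) * √(y : ℝ)) := by linarith
    _ = (4 * Q₁ + 4 * Q₂ + 4) * √(y : ℝ) := by ring

end Pool.Agent.PQ
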